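import Pool.Agent.TH238.T4Out

set_option autoImplicit false

/-!
Sequences of automorphisms of `ℂ²` with diagonal linear parts and `D ^ 4 < C` have basins
biholomorphic to `ℂ²`.
-/

namespace Pool.Agent.Results.MP_b771e3_an.FourthPower

open Filter

theorem result (f : ℕ → EuclideanSpace ℂ (Fin 2) → EuclideanSpace ℂ (Fin 2)) (C D : ℝ)
    (hC : 0 < C) (hD : D < 1) (hCD : D ^ 4 < C)
    (hf : ∀ n, Differentiable ℂ (f n))
    (hinv : ∀ n, ∃ g : EuclideanSpace ℂ (Fin 2) → EuclideanSpace ℂ (Fin 2),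
      Differentiable ℂ g ∧ Function.LeftInverse g (f n) ∧ Function.RightInverse g (f n))
    (hbd : ∀ n (z : EuclideanSpace ℂ (Fin 2)), ‖z‖ < 1 →
      C * ‖z‖ ≤ ‖f n z‖ ∧ ‖f n z‖ ≤ D * ‖z‖)
    (hdiag : ∀ n, ∃ d : Fin 2 → ℂ, ∀ (v : EuclideanSpace ℂ (Fin 2)) (i : Fin 2),
      EuclideanSpace.proj i (fderiv ℂ (f n) 0 v) = d i * EuclideanSpace.proj i v) :
    ∃ φ ψ : EuclideanSpace ℂ (Fin 2) → EuclideanSpace ℂ (Fin 2),
      DifferentiableOn ℂ φ
        {z | ∃ x : ℕ → EuclideanSpace ℂ (Fin 2), x 0 = z ∧ (∀ k, x (k + 1) = f k (x k)) ∧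
          Tendsto x atTop (nhds 0)} ∧
      Differentiable ℂ ψ ∧
      (∀ w, ψ w ∈ {z | ∃ x : ℕ → EuclideanSpace ℂ (Fin 2), x 0 = z ∧
          (∀ k, x (k + 1) = f k (x k)) ∧ Tendsto x atTop (nhds 0)}) ∧
      (∀ z ∈ {z | ∃ x : ℕ → EuclideanSpace ℂ (Fin 2), x 0 = z ∧
          (∀ k, x (k + 1) = f k (x k)) ∧ Tendsto x atTop (nhds 0)},
          ψ (φ z) = z) ∧
      ∀ w, φ (ψ w) = w := by
  choose g dg lg rg using hinv
  choose d hd using hdiag
  have hset : {z | ∃ x : ℕ → EuclideanSpace ℂ (Fin 2), x 0 = z ∧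
      (∀ k, x (k + 1) = f k (x k)) ∧ Tendsto x atTop (nhds 0)} =
      {z | Tendsto (fun n => Pool.Agent.TH238.orb f n z) atTop (nhds 0)} := by
    ext z
    constructor
    · rintro ⟨x, h1, h2, h3⟩
      have : ∀ n, x n = Pool.Agent.TH238.orb f n z := by
        intro n
        induction n with
        | zero => exact h1
        | succ n ih => rw [h2, ih]; rfl
      exact h3.congr this
    · intro h
      exact ⟨fun n => Pool.Agent.TH238.orb f n z, rfl, fun k => rfl, h⟩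
  set P : EuclideanSpace ℂ (Fin 2) ≃L[ℂ] ℂ × ℂ :=
    (EuclideanSpace.equiv (Fin 2) ℂ).trans (ContinuousLinearEquiv.piFinTwo ℂ (fun _ => ℂ)) with hP
  have hP1 : ∀ v, (P v).1 = EuclideanSpace.proj (0 : Fin 2) v := fun v => rfl
  have hP2 : ∀ v, (P v).2 = EuclideanSpace.proj (1 : Fin 2) v := fun v => rfl
  have hdb : ∀ n i, C ≤ ‖d n i‖ ∧ ‖d n i‖ ≤ D := by
    intro n i
    set e : EuclideanSpace ℂ (Fin 2) := EuclideanSpace.single i (1 : ℂ) with he
    have h1 := Pool.Agent.TH238.fderiv_bounds (hf n) one_pos (hbd n) e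
    have h2 : fderiv ℂ (f n) 0 e = d n i • e := by
      ext j
      have h3 := hd n e j
      have h4 : ∀ w : EuclideanSpace ℂ (Fin 2), EuclideanSpace.proj (𝕜 := ℂ) j w = w j :=
        fun w => rfl
      rw [h4, h4] at h3
      rw [h3]
      by_cases hij : j = i
      · subst hij; simp [he]
      · simp [he, hij]
    have h5 : ‖e‖ = 1 := by simp [he]
    rw [h2, norm_smul, h5, mul_one, mul_one, mul_one] at h1
    exact h1
  obtain ⟨-, φ, ψ, d1, d2, hra, e1, e2⟩ := Pool.Agent.TH238.main_lin P (f := f) (g := g)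
    (a := fun n => d n 0) (b := fun n => d n 1) (B := D) (R := 1) hf dg
    (fun n z => lg n z) (fun n z => rg n z) hC hD hCD (fun n => hdb n 0) (fun n => hdb n 1)
    one_pos
    (fun n => by
      have := (hbd n 0 (by simp)).2
      rw [norm_zero, mul_zero] at this
      exact norm_le_zero_iff.1 this)
    (fun n v => by
      ext
      · rw [hP1, hd, hP1]
      · rw [hP2, hd, hP2])
    (fun n z hz => by
      have h1 := (hbd n z hz)
      have h2 : 0 ≤ D := ((norm_nonneg _).trans (hdb 0 0).2)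
      calc ‖f n z‖ ≤ D * ‖z‖ := h1.2
        _ ≤ D * 1 := by gcongr
        _ = D := mul_one D)
  rw [hset]
  exact ⟨ψ, φ, d2, d1, fun w => hra ▸ Set.mem_range_self w, e2, e1⟩

end Pool.Agent.Results.MP_b771e3_an.FourthPower
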